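import Pool.Agent.Helper97.PC.Defs

/-! Row PERT: perturbation of an admissible pair by test functions. -/

set_option autoImplicit false

open MeasureTheory

namespace Helper18.PC

open Helper97.PC

section basic
variable {E : Type*} [NormedAddCommGroup E] [NormedSpace ℝ E]

theorem pd_cont {f : R3 → E} (h : Test f) (j : Fin 3) : Continuous (pd j f) :=
  (h.1.continuous_fderiv (by norm_num)).clm_apply continuous_const

theorem pd_supp {f : R3 → E} (h : Test f) (j : Fin 3) : HasCompactSupport (pd j f) :=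
  h.2.fderiv_apply ℝ _

theorem test_memLp {f : R3 → E} (h : Test f) (p : ENNReal) : MemLp f p volume :=
  h.1.continuous.memLp_of_hasCompactSupport h.2

theorem pd_memLp {f : R3 → E} (h : Test f) (j : Fin 3) (p : ENNReal) : MemLp (pd j f) p volume :=
  (pd_cont h j).memLp_of_hasCompactSupport (pd_supp h j)

theorem test_diff {f : R3 → E} (h : Test f) (x : R3) : DifferentiableAt ℝ f x :=
  (h.1.differentiable (by norm_num)).differentiableAt

/-- a test function times a function of `L^p` -/
theorem int_smul {f : R3 → E} {p : ENNReal} (hp : 1 ≤ p) (hf : MemLp f p volume) {g : R3 → ℝ}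
    (hg : Continuous g) (hg' : HasCompactSupport g) : Integrable (fun x => g x • f x) volume :=
  (hf.locallyIntegrable hp).integrable_smul_left_of_hasCompactSupport hg hg'

/-- integration by parts -/
theorem parts {φ : R3 → ℝ} {θ : R3 → E} (hφ : Test φ) (hθ : Test θ) (j : Fin 3) :
    ∫ x, pd j φ x • θ x = - ∫ x, φ x • pd j θ x := by
  have h := integral_smul_fderiv_eq_neg_fderiv_smul_of_integrable (μ := (volume : Measure R3)) (f := φ) (g := θ)
    (v := EuclideanSpace.single j 1)
    (int_smul le_rfl (test_memLp hθ 1) (pd_cont hφ j) (pd_supp hφ j))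
    (int_smul le_rfl (pd_memLp hθ j 1) hφ.1.continuous hφ.2)
    (int_smul le_rfl (test_memLp hθ 1) hφ.1.continuous hφ.2)
    (fun x _ => test_diff hφ x) (fun x _ => test_diff hθ x)
  rw [← neg_eq_iff_eq_neg] at h
  exact h.symm

end basic

theorem parts_mul {φ θ : R3 → ℝ} (hφ : Test φ) (hθ : Test θ) (j : Fin 3) :
    ∫ x, pd j φ x * θ x = - ∫ x, φ x * pd j θ x := parts hφ hθ j

theorem int_mul {f : R3 → ℝ} {p : ENNReal} (hp : 1 ≤ p) (hf : MemLp f p volume) {g : R3 → ℝ}
    (hg : Continuous g) (hg' : HasCompactSupport g) : Integrable (fun x => g x * f x) volume :=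
  int_smul hp hf hg hg'

/-- `1 / |x|` is locally integrable -/
theorem inv_norm_int (R : ℝ) : IntegrableOn (fun x : R3 => 1 / ‖x‖) (Metric.closedBall 0 R) volume := by
  have h := (integrable_fun_norm_addHaar (volume : Measure R3) (f := (Set.Iic R).indicator (fun y : ℝ => 1 / y))).2 ?_
  · have e : (fun x : R3 => (Set.Iic R).indicator (fun y : ℝ => 1 / y) ‖x‖) =
        (Metric.closedBall (0 : R3) R).indicator (fun x : R3 => 1 / ‖x‖) := by
      funext x
      by_cases hx : ‖x‖ ≤ R
      · rw [Set.indicator_of_mem (by exact hx), Set.indicator_of_mem (by simpa using hx)]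
      · rw [Set.indicator_of_notMem (by exact hx), Set.indicator_of_notMem (by simpa using hx)]
    rw [e] at h
    exact (integrable_indicator_iff Metric.isClosed_closedBall.measurableSet).1 h
  · have hd : Module.finrank ℝ R3 - 1 = 2 := by simp
    rw [hd]
    have e : ∀ y ∈ Set.Ioi (0 : ℝ), (Set.Iic R).indicator (fun y : ℝ => y) y =
        y ^ 2 • (Set.Iic R).indicator (fun y : ℝ => 1 / y) y := by
      intro y hy
      have hy' : (0 : ℝ) < y := hy
      by_cases hR : y ∈ Set.Iic R
      · rw [Set.indicator_of_mem hR, Set.indicator_of_mem hR, smul_eq_mul]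
        field_simp
      · rw [Set.indicator_of_notMem hR, Set.indicator_of_notMem hR, smul_zero]
    refine IntegrableOn.congr_fun ?_ e measurableSet_Ioi
    have h1 : IntegrableOn (fun y : ℝ => y) (Set.Icc 0 R) volume := continuous_id.integrableOn_Icc
    rw [IntegrableOn, integrable_indicator_iff measurableSet_Iic, IntegrableOn,
      Measure.restrict_restrict measurableSet_Iic]
    refine IntegrableOn.mono_set h1 ?_
    intro y hy
    exact ⟨le_of_lt hy.2, hy.1⟩

/-- the Coulomb energy of a perturbed spinor is finite -/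
theorem cou_int {ψ θ : R3 → Sp} (hψ : AEStronglyMeasurable ψ volume)
    (h1 : Integrable (fun x => ‖ψ x‖ ^ 2 / ‖x‖) volume) (hθ : Test θ) (t : ℝ) :
    Integrable (fun x => ‖ψ x + t • θ x‖ ^ 2 / ‖x‖) volume := by
  obtain ⟨M, hM⟩ := hθ.1.continuous.bounded_above_of_compact_support hθ.2
  obtain ⟨R, hR⟩ := hθ.2.isCompact.isBounded.subset_closedBall (0 : R3)
  have hθc : Continuous θ := hθ.1.continuous
  have h2 : Integrable (fun x => ‖θ x‖ ^ 2 / ‖x‖) volume := by
    have h3 : Integrable (fun x : R3 => M ^ 2 * (Metric.closedBall (0 : R3) R).indicator (fun x : R3 => 1 / ‖x‖) x)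
        volume :=
      ((integrable_indicator_iff Metric.isClosed_closedBall.measurableSet).2 (inv_norm_int R)).const_mul _
    refine h3.mono ?_ (Filter.Eventually.of_forall (fun x => ?_))
    · exact (hθc.norm.pow 2).aestronglyMeasurable.div₀ continuous_norm.aestronglyMeasurable
    · rw [Real.norm_of_nonneg (by positivity)]
      refine le_trans ?_ (le_abs_self _)
      by_cases hx : x ∈ Metric.closedBall (0 : R3) R
      · rw [Set.indicator_of_mem hx, ← mul_one_div]
        gcongr
        exact hM x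
      · have h0 : θ x = 0 := by
          by_contra h
          exact hx (hR (subset_tsupport _ h))
        rw [Set.indicator_of_notMem hx, h0]
        simp
  have h4 : Integrable (fun x => 2 * (‖ψ x‖ ^ 2 / ‖x‖) + 2 * t ^ 2 * (‖θ x‖ ^ 2 / ‖x‖)) volume :=
    (h1.const_mul _).add (h2.const_mul _)
  refine h4.mono ?_ (Filter.Eventually.of_forall (fun x => ?_))
  · exact ((hψ.add (hθc.const_smul t).aestronglyMeasurable).norm.pow 2).div₀ continuous_norm.aestronglyMeasurable
  · rw [Real.norm_of_nonneg (by positivity)]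
    refine le_trans ?_ (le_abs_self _)
    have h5 : ‖ψ x + t • θ x‖ ≤ ‖ψ x‖ + |t| * ‖θ x‖ := by
      refine (norm_add_le _ _).trans ?_
      rw [norm_smul, Real.norm_eq_abs]
    have h6 : ‖ψ x + t • θ x‖ ^ 2 ≤ 2 * ‖ψ x‖ ^ 2 + 2 * t ^ 2 * ‖θ x‖ ^ 2 := by
      have h7 : ‖ψ x + t • θ x‖ ^ 2 ≤ (‖ψ x‖ + |t| * ‖θ x‖) ^ 2 := by
        gcongr
      have h8 : |t| ^ 2 = t ^ 2 := sq_abs t
      nlinarith [sq_nonneg (‖ψ x‖ - |t| * ‖θ x‖)]
    calc ‖ψ x + t • θ x‖ ^ 2 / ‖x‖ ≤ (2 * ‖ψ x‖ ^ 2 + 2 * t ^ 2 * ‖θ x‖ ^ 2) / ‖x‖ := by gcongr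
      _ = 2 * (‖ψ x‖ ^ 2 / ‖x‖) + 2 * t ^ 2 * (‖θ x‖ ^ 2 / ‖x‖) := by ring

theorem curlA_memLp {a : Fin 3 → R3 → ℝ} (ha : TestA a) (j : Fin 3) (p : ENNReal) :
    MemLp (curlA a j) p volume :=
  (pd_memLp (ha.1 _) _ p).sub (pd_memLp (ha.1 _) _ p)

instance holder632 : ENNReal.HolderTriple 6 3 2 := ⟨by
  have h6 : (6 : ENNReal)⁻¹ = ENNReal.ofReal (1 / 6) := by
    rw [one_div, ENNReal.ofReal_inv_of_pos (by norm_num)]; norm_num
  have h3 : (3 : ENNReal)⁻¹ = ENNReal.ofReal (1 / 3) := by
    rw [one_div, ENNReal.ofReal_inv_of_pos (by norm_num)]; norm_num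
  have h2 : (2 : ENNReal)⁻¹ = ENNReal.ofReal (1 / 2) := by
    rw [one_div, ENNReal.ofReal_inv_of_pos (by norm_num)]; norm_num
  rw [h6, h3, h2, ← ENNReal.ofReal_add (by norm_num) (by norm_num)]
  norm_num⟩

/-- the terms of the perturbation of `Pi` -/
theorem pert_term {ψ θ : R3 → Sp} {A a : R3 → ℝ} (hψ : MemLp ψ 2 volume) (hA : MemLp A 6 volume)
    (hθ : Test θ) (ha : Test a) (j : Fin 3) (t : ℝ) :
    MemLp (fun x => t • ((-Complex.I) • pd j θ x) - (t * A x) • θ x - (t * a x) • ψ x - (t * t * a x) • θ x) 2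
      volume := by
  have h1 : MemLp (fun x => t • ((-Complex.I) • pd j θ x)) 2 volume :=
    ((pd_memLp hθ j 2).const_smul (-Complex.I)).const_smul t
  have h2 : MemLp (fun x => (t * A x) • θ x) 2 volume :=
    MemLp.smul (p := 6) (q := 3) (test_memLp hθ 3) (hA.const_mul t)
  have h3 : MemLp (fun x => (t * a x) • ψ x) 2 volume :=
    MemLp.smul (p := ⊤) (q := 2) hψ ((test_memLp ha ⊤).const_mul t)
  have h4 : MemLp (fun x => (t * t * a x) • θ x) 2 volume :=
    MemLp.smul (p := ⊤) (q := 2) (test_memLp hθ 2) ((test_memLp ha ⊤).const_mul (t * t))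
  exact ((h1.sub h2).sub h3).sub h4

theorem pert_pi (ψ θ : R3 → Sp) (D : Fin 3 → R3 → Sp) (A a : Fin 3 → R3 → ℝ) (t : ℝ) (x : R3) :
    Pi (fun x => ψ x + t • θ x) (fun j x => D j x + t • pd j θ x) (fun j x => A j x + t * a j x) x =
      Pi ψ D A x + ∑ j, sig j (t • ((-Complex.I) • pd j θ x) - (t * A j x) • θ x - (t * a j x) • ψ x -
        (t * t * a j x) • θ x) := by
  unfold Pi
  rw [← Finset.sum_add_distrib]
  refine Finset.sum_congr rfl fun j _ => ?_
  rw [← map_add]
  congr 1
  ext i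
  simp only [PiLp.add_apply, PiLp.sub_apply, PiLp.smul_apply, smul_eq_mul, Complex.real_smul, Complex.ofReal_add,
    Complex.ofReal_mul]
  ring

theorem PERT : ST_PERT := by
  intro ψ D A B hA θ a hθ ha t
  refine ⟨?_, fun j => ?_, fun j φ hφ => ?_, fun j => ?_, fun φ hφ => ?_, fun j => ?_, fun j φ hφ => ?_, ?_, ?_⟩
  · exact hA.psiL2.add ((test_memLp hθ 2).const_smul t)
  · exact (hA.derL2 j).add ((pd_memLp hθ j 2).const_smul t)
  · have e1 : ∀ x, pd j φ x • (ψ x + t • θ x) = pd j φ x • ψ x + t • (pd j φ x • θ x) := fun x => by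
      rw [smul_add, smul_comm]
    have e2 : ∀ x, φ x • (D j x + t • pd j θ x) = φ x • D j x + t • (φ x • pd j θ x) := fun x => by
      rw [smul_add, smul_comm]
    simp only [e1, e2]
    have i1 : Integrable (fun x => t • (pd j φ x • θ x)) volume :=
      (int_smul le_rfl (test_memLp hθ 1) (pd_cont hφ j) (pd_supp hφ j)).smul t
    have i2 : Integrable (fun x => t • (φ x • pd j θ x)) volume :=
      (int_smul le_rfl (pd_memLp hθ j 1) hφ.1.continuous hφ.2).smul t
    rw [integral_add (int_smul (by norm_num) hA.psiL2 (pd_cont hφ j) (pd_supp hφ j)) i1,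
      integral_add (int_smul (by norm_num) (hA.derL2 j) hφ.1.continuous hφ.2) i2,
      integral_smul, integral_smul, hA.der j φ hφ, parts hφ hθ j, neg_add, smul_neg]
  · exact (hA.potL6 j).add ((test_memLp (ha.1 j) 6).const_mul t)
  · have e1 : ∀ x, ∑ j, pd j φ x * (A j x + t * a j x) = ∑ j, pd j φ x * A j x + t * ∑ j, pd j φ x * a j x := by
      intro x
      rw [Finset.mul_sum, ← Finset.sum_add_distrib]
      exact Finset.sum_congr rfl fun j _ => by ring
    simp only [e1]
    have i1 : Integrable (fun x => ∑ j, pd j φ x * A j x) volume :=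
      integrable_finsetSum _ fun j _ => int_mul (by norm_num) (hA.potL6 j) (pd_cont hφ j) (pd_supp hφ j)
    have i2 : ∀ j : Fin 3, Integrable (fun x => pd j φ x * a j x) volume := fun j =>
      int_mul le_rfl (test_memLp (ha.1 j) 1) (pd_cont hφ j) (pd_supp hφ j)
    rw [integral_add i1 ((integrable_finsetSum _ fun j _ => i2 j).const_mul t), hA.div φ hφ, integral_const_mul,
      integral_finsetSum _ (fun j _ => i2 j)]
    have e2 : ∀ j : Fin 3, ∫ x, pd j φ x * a j x = - ∫ x, φ x * pd j (a j) x := fun j => parts_mul hφ (ha.1 j) j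
    simp only [e2]
    rw [Finset.sum_neg_distrib, ← integral_finsetSum _ (fun j _ => int_mul le_rfl (pd_memLp (ha.1 j) j 1)
      hφ.1.continuous hφ.2)]
    have e3 : ∀ x, ∑ j, φ x * pd j (a j) x = 0 := fun x => by
      rw [← Finset.mul_sum, ha.2 x, mul_zero]
    simp only [e3]
    simp
  · exact (hA.magL2 j).add ((curlA_memLp ha j 2).const_mul t)
  · have e1 : ∀ x, pd (j + 1) φ x * (A (j + 2) x + t * a (j + 2) x) - pd (j + 2) φ x * (A (j + 1) x + t * a (j + 1) x)
        = (pd (j + 1) φ x * A (j + 2) x - pd (j + 2) φ x * A (j + 1) x) +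
          t * (pd (j + 1) φ x * a (j + 2) x - pd (j + 2) φ x * a (j + 1) x) := fun x => by ring
    have e2 : ∀ x, φ x * (B j x + t * curlA a j x) = φ x * B j x +
        t * (φ x * pd (j + 1) (a (j + 2)) x - φ x * pd (j + 2) (a (j + 1)) x) := fun x => by
      unfold curlA; ring
    simp only [e1, e2]
    have ia : ∀ k l : Fin 3, Integrable (fun x => pd k φ x * A l x) volume := fun k l =>
      int_mul (by norm_num) (hA.potL6 l) (pd_cont hφ k) (pd_supp hφ k)
    have ib : ∀ k l : Fin 3, Integrable (fun x => pd k φ x * a l x) volume := fun k l =>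
      int_mul le_rfl (test_memLp (ha.1 l) 1) (pd_cont hφ k) (pd_supp hφ k)
    have ic : ∀ k l : Fin 3, Integrable (fun x => φ x * pd k (a l) x) volume := fun k l =>
      int_mul le_rfl (pd_memLp (ha.1 l) k 1) hφ.1.continuous hφ.2
    have i1 : Integrable (fun x => pd (j + 1) φ x * A (j + 2) x - pd (j + 2) φ x * A (j + 1) x) volume :=
      (ia _ _).sub (ia _ _)
    have i2 : Integrable (fun x => t * (pd (j + 1) φ x * a (j + 2) x - pd (j + 2) φ x * a (j + 1) x)) volume :=
      ((ib _ _).sub (ib _ _)).const_mul t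
    have i3 : Integrable (fun x => t * (φ x * pd (j + 1) (a (j + 2)) x - φ x * pd (j + 2) (a (j + 1)) x)) volume :=
      ((ic _ _).sub (ic _ _)).const_mul t
    rw [integral_add i1 i2, integral_add (int_mul (by norm_num) (hA.magL2 j) hφ.1.continuous hφ.2) i3,
      integral_const_mul, integral_const_mul, hA.curl j φ hφ, integral_sub (ib _ _) (ib _ _),
      integral_sub (ic _ _) (ic _ _), parts_mul hφ (ha.1 _), parts_mul hφ (ha.1 _)]
    ring
  · have e : Pi (fun x => ψ x + t • θ x) (fun j x => D j x + t • pd j θ x) (fun j x => A j x + t * a j x) =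
        fun x => Pi ψ D A x + ∑ j, sig j (t • ((-Complex.I) • pd j θ x) - (t * A j x) • θ x - (t * a j x) • ψ x -
          (t * t * a j x) • θ x) := funext (pert_pi ψ θ D A a t)
    rw [e]
    refine hA.kinL2.add (memLp_finsetSum _ fun j _ => ?_)
    exact (sig j).comp_memLp' (pert_term hA.psiL2 (hA.potL6 j) hθ (ha.1 j) j t)
  · exact cou_int hA.psiL2.1 hA.couL1 hθ t

end Helper18.PC
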